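import Pool.Agent.Helper7.RO.Stmts

/-! Row CON of sheet RO: the contradiction in an abstract group. -/

set_option autoImplicit false

namespace Pool.Agent.Helper70.RO

open Pool.Agent.Helper7.RO

theorem cone_pow {G : Type} [Group G] {R : Set G} (hR : Cone R) {g : G} (hg : g ∈ R) (n : ℕ) :
    g ^ (n + 1) ∈ R := by
  induction n with
  | zero => simpa using hg
  | succ n ih =>
    rw [pow_succ]
    exact hR.1 _ ih _ hg

theorem cone_root {G : Type} [Group G] {R : Set G} (hR : Cone R) {g : G} (n : ℕ)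
    (hg : g ^ (n + 1) ∈ R) : g ∈ R := by
  by_contra hcon
  by_cases h1 : g = 1
  · rw [h1, one_pow] at hg
    exact hR.2.1 hg
  · have h2 : g⁻¹ ∈ R := by
      by_contra h3
      exact hcon ((hR.2.2 g h1).2 h3)
    have h3 := cone_pow hR h2 n
    have h4 := hR.1 _ hg _ h3
    rw [inv_pow, mul_inv_cancel] at h4
    exact hR.2.1 h4

theorem st_CON : ST_CON := by
  intro G _ R a c x y hR hax hay hac hx hy hxy hY h
  have Cax : Commute a x := hax
  have Cay : Commute a y := hay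
  have Cac : Commute a c := hac
  have Ccx : Commute c x := by
    rw [← hx]
    exact (Commute.refl x).pow_left 4
  have Ccy : Commute c y := by
    rw [← hy]
    exact (Commute.refl y).pow_left 3
  generalize hYd : a ^ 60 * c = Y at hY h
  have CYx : Commute Y x := by
    rw [← hYd]
    exact (Cax.pow_left 60).mul_left Ccx
  have CYy : Commute Y y := by
    rw [← hYd]
    exact (Cay.pow_left 60).mul_left Ccy
  have CYa : Commute Y a := by
    rw [← hYd]
    exact ((Commute.refl a).pow_left 60).mul_left Cac.symm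
  have hYd' : c * a ^ 60 = Y := by
    rw [← hYd]
    exact (Cac.pow_left 60).eq.symm
  obtain ⟨u, hu⟩ : ∃ u, u = x * a ^ 15 := ⟨_, rfl⟩
  obtain ⟨v, hv⟩ : ∃ v, v = y * a ^ 20 := ⟨_, rfl⟩
  obtain ⟨w, hw⟩ : ∃ w, w = x * y * a ^ 36 := ⟨_, rfl⟩
  have hu4 : u ^ 4 = Y := by
    rw [hu, (Cax.symm.pow_right 15).mul_pow, hx, ← pow_mul]
    exact hYd'
  have hv3 : v ^ 3 = Y := by
    rw [hv, (Cay.symm.pow_right 20).mul_pow, hy, ← pow_mul]
    exact hYd'
  have hw5 : w ^ 5 = Y ^ 3 := by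
    have Cxya : Commute (x * y) a := Cax.symm.mul_left Cay.symm
    rw [hw, (Cxya.pow_right 36).mul_pow, hxy, ← pow_mul, ← hYd',
      (Cac.symm.pow_right 60).mul_pow, ← pow_mul]
  have CYv : Commute Y v := by
    rw [hv]
    exact CYy.mul_right (CYa.pow_right 20)
  have huR : u ∈ R := cone_root hR 3 (by rw [hu4]; exact hY)
  have hvR : v ∈ R := cone_root hR 2 (by rw [hv3]; exact hY)
  have hwR : w ∈ R := cone_root hR 4 (by rw [hw5]; exact cone_pow hR hY 2)
  have hwe : w = u * v * a := by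
    rw [hw, hu, hv]
    have e1 : x * a ^ 15 * (y * a ^ 20) * a = x * (a ^ 15 * y) * (a ^ 20 * a) := by
      simp only [mul_assoc]
    rw [e1, (Cay.pow_left 15).eq, ← pow_succ]
    have e2 : x * (y * a ^ 15) * a ^ (20 + 1) = x * y * (a ^ 15 * a ^ (20 + 1)) := by
      simp only [mul_assoc]
    rw [e2, ← pow_add]
  have key : v ^ 2 * u ^ 3 * w = Y ^ 2 * a := by
    rw [hwe]
    have e1 : v ^ 2 * u ^ 3 * (u * v * a) = v ^ 2 * (u ^ 3 * u) * v * a := by
      simp only [mul_assoc]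
    rw [e1, ← pow_succ, hu4, ← (CYv.pow_right 2).eq]
    have e2 : Y * v ^ 2 * v * a = Y * (v ^ 2 * v) * a := by
      simp only [mul_assoc]
    rw [e2, ← pow_succ, hv3, pow_two]
  have hz : Y ^ 2 * a ∈ R := by
    rw [← key]
    exact hR.1 _ (hR.1 _ (cone_pow hR hvR 1) _ (cone_pow hR huR 2)) _ hwR
  have hz60 := cone_pow hR hz 59
  rw [(CYa.pow_left 2).mul_pow, ← pow_mul] at hz60
  have h2 := hR.1 _ hz60 _ (h 121)
  have e3 : Y ^ (2 * (59 + 1)) * a ^ (59 + 1) * (c * (Y ^ 121)⁻¹) =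
      Y ^ 120 * (a ^ 60 * c) * (Y ^ 121)⁻¹ := by
    simp only [mul_assoc]
  rw [e3, hYd, ← pow_succ, mul_inv_cancel] at h2
  exact hR.2.1 h2

end Pool.Agent.Helper70.RO
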