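import Pool.Agent.Helper7.RO.Stmts

/-! Row RO of sheet RO: a right order on the order automorphisms of the line. -/

set_option autoImplicit false

namespace Pool.Agent.Helper70.RO

open Pool.Agent.Helper7.RO

/-- `f` moves a point up, and fixes all earlier points -/
def Up (f : ℝ ≃o ℝ) : Prop :=
  ∃ z, z < f z ∧ ∀ t, WellOrderingRel t z → f t = t

theorem st_RO : ST_RO := by
  refine ⟨{f | Up f}, ⟨?_, ?_, ?_⟩, ?_⟩
  · rintro a ⟨z, hz, hz'⟩ b ⟨w, hw, hw'⟩
    rcases trichotomous_of (r := WellOrderingRel) z w with h | h | h
    · refine ⟨z, ?_, ?_⟩
      · show z < a (b z)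
        rw [hw' z h]
        exact hz
      · intro t ht
        show a (b t) = t
        rw [hw' t (_root_.trans ht h), hz' t ht]
    · subst h
      refine ⟨z, ?_, ?_⟩
      · show z < a (b z)
        exact hz.trans (a.strictMono hw)
      · intro t ht
        show a (b t) = t
        rw [hw' t ht, hz' t ht]
    · refine ⟨w, ?_, ?_⟩
      · show w < a (b w)
        have h1 : a w = w := hz' w h
        calc w = a w := h1.symm
          _ < a (b w) := a.strictMono hw
      · intro t ht
        show a (b t) = t
        rw [hw' t ht, hz' t (_root_.trans ht h)]
  · rintro ⟨z, hz, _⟩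
    exact lt_irrefl z hz
  · intro a ha
    constructor
    · rintro ⟨z, hz, hz'⟩ ⟨w, hw, hw'⟩
      have hw1 : ∀ t, WellOrderingRel t w → a t = t := by
        intro t ht
        have h := hw' t ht
        calc a t = a (a⁻¹ t) := by rw [h]
          _ = t := by
            show (a * a⁻¹) t = t
            rw [mul_inv_cancel]
            rfl
      have hw2 : a w < w := by
        calc a w < a (a⁻¹ w) := a.strictMono hw
          _ = w := by
            show (a * a⁻¹) w = w
            rw [mul_inv_cancel]
            rfl
      rcases trichotomous_of (r := WellOrderingRel) z w with h | h | h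
      · have := hw1 z h
        rw [this] at hz
        exact lt_irrefl _ hz
      · subst h
        exact lt_asymm hz hw2
      · have := hz' w h
        rw [this] at hw2
        exact lt_irrefl _ hw2
    · intro hcon
      have hne : ∃ z, a z ≠ z := by
        by_contra h
        push Not at h
        apply ha
        ext t
        exact h t
      obtain ⟨z, hz, hmin⟩ := (WellOrderingRel.isWellOrder (α := ℝ)).wf.has_min
        {z | a z ≠ z} hne
      have hmin' : ∀ t, WellOrderingRel t z → a t = t := by
        intro t ht
        by_contra h
        exact hmin t h ht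
      rcases lt_or_gt_of_ne hz with h | h
      · exfalso
        apply hcon
        refine ⟨z, ?_, ?_⟩
        · by_contra hle
          push Not at hle
          have h2 := a.monotone hle
          have h3 : a (a⁻¹ z) = z := by
            show (a * a⁻¹) z = z
            rw [mul_inv_cancel]
            rfl
          rw [h3] at h2
          exact absurd h (not_lt.2 h2)
        · intro t ht
          have h2 := hmin' t ht
          calc a⁻¹ t = a⁻¹ (a t) := by rw [h2]
            _ = t := by
              show (a⁻¹ * a) t = t
              rw [inv_mul_cancel]
              rfl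
      · exact ⟨z, h, hmin'⟩
  · intro f hf
    obtain ⟨z, _, hmin⟩ := (WellOrderingRel.isWellOrder (α := ℝ)).wf.has_min
      (Set.univ : Set ℝ) ⟨0, trivial⟩
    exact ⟨z, hf z, fun t ht => absurd ht (hmin t trivial)⟩

end Pool.Agent.Helper70.RO
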