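import Pool.Agent.Helper7.RO.Stmts

/-! Row RT of sheet RO: the centralizer. -/

set_option autoImplicit false

namespace Pool.Agent.Helper70.RO

open Pool.Agent.Helper7.RO

theorem st_RT (h1 : ST_RO) (h2 : ST_XY) : ST_RT := by
  obtain ⟨P, hP, hpos⟩ := h1
  obtain ⟨x, y, c, hc, hx, hy, hxy⟩ := h2
  have hcx : x * c = c * x := by
    rw [← hx]
    exact ((Commute.refl x).pow_right 4).eq
  have hcy : y * c = c * y := by
    rw [← hy]
    exact ((Commute.refl y).pow_right 3).eq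
  have mem : ∀ g : ℝ ≃o ℝ, g * c = c * g → g ∈ Subgroup.centralizer {c} := by
    intro g hg
    rw [Subgroup.mem_centralizer_iff]
    intro k hk
    rw [Set.mem_singleton_iff] at hk
    rw [hk]
    exact hg.symm
  refine ⟨Subgroup.centralizer ({c} : Set (ℝ ≃o ℝ)), inferInstance, ⟨c, mem c rfl⟩,
    ⟨x, mem x hcx⟩, ⟨y, mem y hcy⟩, {g | (g : ℝ ≃o ℝ) ∈ P}, ⟨?_, ?_, ?_⟩, ?_, ?_, ?_, ?_, ?_⟩
  · intro a ha b hb
    exact hP.1 _ ha _ hb
  · exact hP.2.1
  · intro a ha
    have h : (a : ℝ ≃o ℝ) ≠ 1 := fun h => ha (Subtype.ext h)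
    exact hP.2.2 _ h
  · show c ∈ P
    apply hpos
    intro z
    rw [hc]
    linarith
  · intro g
    apply Subtype.ext
    have := (Subgroup.mem_centralizer_iff.1 g.2) c rfl
    exact this.symm
  · apply Subtype.ext
    exact hx
  · apply Subtype.ext
    exact hy
  · apply Subtype.ext
    exact hxy

end Pool.Agent.Helper70.RO
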