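import Pool.Agent.Helper7.RO.Stmts

/-! Row XY of sheet RO: the two explicit maps. -/

set_option autoImplicit false

namespace Pool.Agent.Helper70.RO

open Pool.Agent.Helper7.RO

/-- the map on `[0, 1)` -/
noncomputable def gf (u : ℝ) : ℝ :=
  if u < 1 / 2 then u / 2 + 1 / 2 else if u < 3 / 4 then u + 1 / 4 else 2 * u - 1 / 2

/-- the periodic map -/
noncomputable def yf (z : ℝ) : ℝ := ⌊z⌋ + gf (Int.fract z)

theorem gf_mono {u v : ℝ} (h : u ≤ v) : gf u ≤ gf v := by
  unfold gf
  split_ifs <;> linarith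

theorem gf_lo {u : ℝ} (h : 0 ≤ u) : 1 / 2 ≤ gf u := by
  unfold gf
  split_ifs <;> linarith

theorem gf_hi {u : ℝ} (h : u < 1) : gf u ≤ 3 / 2 := by
  unfold gf
  split_ifs <;> linarith

theorem yf_mono : Monotone yf := by
  intro z w h
  unfold yf
  have h1 : ⌊z⌋ ≤ ⌊w⌋ := Int.floor_le_floor h
  rcases eq_or_lt_of_le h1 with h2 | h2
  · have h3 : Int.fract z ≤ Int.fract w := by
      unfold Int.fract
      rw [h2]
      linarith
    rw [h2]
    have := gf_mono h3
    linarith
  · have h3 : (⌊z⌋ : ℝ) + 1 ≤ ⌊w⌋ := by exact_mod_cast h2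
    have h4 := gf_hi (Int.fract_lt_one z)
    have h5 := gf_lo (Int.fract_nonneg w)
    linarith

theorem yf_int (m : ℤ) (z : ℝ) (h : (m : ℝ) ≤ z) (h' : z < m + 1) : yf z = m + gf (z - m) := by
  have h1 : ⌊z⌋ = m := Int.floor_eq_iff.2 ⟨h, h'⟩
  unfold yf Int.fract
  rw [h1]

theorem y1 (m : ℤ) (z : ℝ) (h : (m : ℝ) ≤ z) (h' : z < m + 1 / 2) :
    yf z = z / 2 + m / 2 + 1 / 2 := by
  rw [yf_int m z h (by linarith)]
  unfold gf
  rw [if_pos (by linarith)]
  ring

theorem y2 (m : ℤ) (z : ℝ) (h : (m : ℝ) + 1 / 2 ≤ z) (h' : z < m + 3 / 4) :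
    yf z = z + 1 / 4 := by
  rw [yf_int m z (by linarith) (by linarith)]
  unfold gf
  rw [if_neg (by linarith), if_pos (by linarith)]
  ring

theorem y3 (m : ℤ) (z : ℝ) (h : (m : ℝ) + 3 / 4 ≤ z) (h' : z < m + 1) :
    yf z = 2 * z - m - 1 / 2 := by
  rw [yf_int m z (by linarith) (by linarith)]
  unfold gf
  rw [if_neg (by linarith), if_neg (by linarith)]
  ring

theorem yf3 (z : ℝ) : yf (yf (yf z)) = z + 1 := by
  have h0 : (⌊z⌋ : ℝ) ≤ z := Int.floor_le z
  have h1 : z < ⌊z⌋ + 1 := Int.lt_floor_add_one z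
  generalize ⌊z⌋ = m at h0 h1
  by_cases c1 : z < m + 1 / 2
  · have s1 := y1 m z h0 c1
    have s2 := y2 m (yf z) (by linarith) (by linarith)
    have s3 := y3 m (yf (yf z)) (by linarith) (by linarith)
    linarith
  · push Not at c1
    by_cases c2 : z < m + 3 / 4
    · have s1 := y2 m z c1 c2
      have s2 := y3 m (yf z) (by linarith) (by linarith)
      have s3 := y1 (m + 1) (yf (yf z)) (by push_cast; linarith) (by push_cast; linarith)
      push_cast at s3
      linarith
    · push Not at c2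
      have s1 := y3 m z c2 h1
      have s2 := y1 (m + 1) (yf z) (by push_cast; linarith) (by push_cast; linarith)
      push_cast at s2
      have s3 := y2 (m + 1) (yf (yf z)) (by push_cast; linarith) (by push_cast; linarith)
      linarith

/-- `x y` -/
noncomputable def wf (z : ℝ) : ℝ := yf z + 1 / 4

theorem w1 (m : ℤ) (z : ℝ) (h : (m : ℝ) ≤ z) (h' : z < m + 1 / 2) :
    wf z = z / 2 + m / 2 + 3 / 4 := by
  have := y1 m z h h'
  unfold wf
  linarith

theorem w2 (m : ℤ) (z : ℝ) (h : (m : ℝ) + 1 / 2 ≤ z) (h' : z < m + 3 / 4) :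
    wf z = z + 1 / 2 := by
  have := y2 m z h h'
  unfold wf
  linarith

theorem w3 (m : ℤ) (z : ℝ) (h : (m : ℝ) + 3 / 4 ≤ z) (h' : z < m + 1) :
    wf z = 2 * z - m - 1 / 4 := by
  have := y3 m z h h'
  unfold wf
  linarith

/-- one fundamental interval -/
theorem wf5a (m : ℤ) (z : ℝ) (h : (m : ℝ) ≤ z) (h' : z < m + 1 / 4) :
    wf (wf (wf (wf (wf z)))) = z + 3 := by
  have s1 := w1 m z h (by linarith)
  have s2 := w3 m (wf z) (by linarith) (by linarith)
  have s3 := w1 (m + 1) (wf (wf z)) (by push_cast; linarith) (by push_cast; linarith)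
  push_cast at s3
  have s4 := w3 (m + 1) (wf (wf (wf z))) (by push_cast; linarith) (by push_cast; linarith)
  push_cast at s4
  have s5 := w2 (m + 2) (wf (wf (wf (wf z)))) (by push_cast; linarith) (by push_cast; linarith)
  linarith

theorem wf5 (z : ℝ) : wf (wf (wf (wf (wf z)))) = z + 3 := by
  have h0 : (⌊z⌋ : ℝ) ≤ z := Int.floor_le z
  have h1 : z < ⌊z⌋ + 1 := Int.lt_floor_add_one z
  generalize ⌊z⌋ = m at h0 h1
  by_cases c1 : z < m + 1 / 4
  · exact wf5a m z h0 c1
  push Not at c1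
  by_cases c2 : z < m + 1 / 2
  · -- `[1/4, 1/2] → [7/8, 1] → 1 + [1/2, 3/4] → 2 + [0, 1/4] → 2 + [3/4, 7/8] → 3 + [1/4, 1/2]`
    have s1 := w1 m z h0 c2
    have s2 := w3 m (wf z) (by linarith) (by linarith)
    have s3 := w2 (m + 1) (wf (wf z)) (by push_cast; linarith) (by push_cast; linarith)
    have s4 := w1 (m + 2) (wf (wf (wf z))) (by push_cast; linarith) (by push_cast; linarith)
    push_cast at s4
    have s5 := w3 (m + 2) (wf (wf (wf (wf z)))) (by push_cast; linarith)
      (by push_cast; linarith)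
    push_cast at s5
    linarith
  push Not at c2
  by_cases c3 : z < m + 3 / 4
  · have s1 := w2 m z c2 c3
    have s2 := w1 (m + 1) (wf z) (by push_cast; linarith) (by push_cast; linarith)
    push_cast at s2
    have s3 := w3 (m + 1) (wf (wf z)) (by push_cast; linarith) (by push_cast; linarith)
    push_cast at s3
    have s4 := w1 (m + 2) (wf (wf (wf z))) (by push_cast; linarith) (by push_cast; linarith)
    push_cast at s4
    have s5 := w3 (m + 2) (wf (wf (wf (wf z)))) (by push_cast; linarith)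
      (by push_cast; linarith)
    push_cast at s5
    linarith
  push Not at c3
  by_cases c4 : z < m + 7 / 8
  · -- `[3/4, 7/8] → 1 + [1/4, 1/2] → 1 + [7/8, 1] → 2 + [1/2, 3/4] → 3 + [0, 1/4]`
    have s1 := w3 m z c3 h1
    have s2 := w1 (m + 1) (wf z) (by push_cast; linarith) (by push_cast; linarith)
    push_cast at s2
    have s3 := w3 (m + 1) (wf (wf z)) (by push_cast; linarith) (by push_cast; linarith)
    push_cast at s3
    have s4 := w2 (m + 2) (wf (wf (wf z))) (by push_cast; linarith) (by push_cast; linarith)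
    have s5 := w1 (m + 3) (wf (wf (wf (wf z)))) (by push_cast; linarith)
      (by push_cast; linarith)
    push_cast at s5
    linarith
  · push Not at c4
    -- `[7/8, 1] → 1 + [1/2, 3/4] → 2 + [0, 1/4] → 2 + [3/4, 7/8] → 3 + [1/4, 1/2]`
    have s1 := w3 m z c3 h1
    have s2 := w2 (m + 1) (wf z) (by push_cast; linarith) (by push_cast; linarith)
    have s3 := w1 (m + 2) (wf (wf z)) (by push_cast; linarith) (by push_cast; linarith)
    push_cast at s3
    have s4 := w3 (m + 2) (wf (wf (wf z))) (by push_cast; linarith) (by push_cast; linarith)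
    push_cast at s4
    have s5 := w1 (m + 3) (wf (wf (wf (wf z)))) (by push_cast; linarith)
      (by push_cast; linarith)
    push_cast at s5
    linarith

theorem yf_inj : Function.Injective yf := by
  intro z w h
  have h1 := yf3 z
  have h2 := yf3 w
  rw [h, h2] at h1
  linarith

theorem yf_surj : Function.Surjective yf := by
  intro t
  refine ⟨yf (yf (t - 1)), ?_⟩
  rw [yf3]
  ring

theorem st_XY : ST_XY := by
  obtain ⟨y, hy⟩ : ∃ y : ℝ ≃o ℝ, ∀ z, y z = yf z :=
    ⟨(yf_mono.strictMono_of_injective yf_inj).orderIsoOfSurjective yf yf_surj, fun z => rfl⟩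
  obtain ⟨x, hx⟩ : ∃ x : ℝ ≃o ℝ, ∀ z, x z = z + 1 / 4 :=
    ⟨OrderIso.addRight (1 / 4), fun z => rfl⟩
  obtain ⟨c, hc⟩ : ∃ c : ℝ ≃o ℝ, ∀ z, c z = z + 1 :=
    ⟨OrderIso.addRight 1, fun z => rfl⟩
  refine ⟨x, y, c, hc, ?_, ?_, ?_⟩
  · apply RelIso.ext
    intro z
    have h : (x ^ 4) z = x (x (x (x z))) := rfl
    rw [h, hx, hx, hx, hx, hc]
    ring
  · apply RelIso.ext
    intro z
    have h : (y ^ 3) z = y (y (y z)) := rfl
    rw [h, hy, hy, hy, hc, yf3]
  · apply RelIso.ext
    intro z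
    have h : ((x * y) ^ 5) z = x (y (x (y (x (y (x (y (x (y z))))))))) := rfl
    have h' : (c ^ 3) z = c (c (c z)) := rfl
    have h2 : ∀ z, x (y z) = wf z := by
      intro z
      rw [hx, hy]
      rfl
    rw [h, h', h2, h2, h2, h2, h2, wf5, hc, hc, hc]
    ring

end Pool.Agent.Helper70.RO
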